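import Pool.Agent.K1H88.DF.Stm
import Pool.Agent.K1H88.DP.Asm2

/-! Simple facts used in the assembly of project DF. -/

set_option autoImplicit false
set_option linter.unusedSectionVars false

namespace Pool.Agent.K1H88.DF

open Module NumberField
open Pool.Agent.K1H88.DP (Kp pl vn cont cj cj_cj pl_mul pl_cj pl_swap pl_self)

variable (F : Type) [Field F] [NumberField F] {ι : Type} [Fintype ι] (E : ι → Type)
  [∀ k, Field (E k)] [∀ k, NumberField (E k)] [∀ k, Algebra F (E k)]

/-- the restriction of an embedding to `F` -/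
def res {K : Type} [Field K] (i : DP.Emb E K) : F →+* K := i.2.comp (algebraMap F (E i.1))

/-- an embedding and its restriction to `F` -/
def fib {K : Type} [Field K] : DP.Emb E K ≃ (Σ u : F →+* K, EmbU F E u) :=
  (Equiv.sigmaFiberEquiv (res F E)).symm

lemma prod_emb {K : Type} [Field K] [CharZero K] {M : Type} [CommMonoid M] (f : DP.Emb E K → M) :
    ∏ i, f i = ∏ u : F →+* K, ∏ i : EmbU F E u, f i.1 := by
  rw [← Fintype.prod_sigma (fun x : (Σ u : F →+* K, EmbU F E u) => f x.2.1)]
  exact Fintype.prod_equiv (fib F E) _ _ fun i => rfl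

lemma sum_emb {K : Type} [Field K] [CharZero K] (f : DP.Emb E K → ℝ) :
    ∑ i, f i = ∑ u : F →+* K, ∑ i : EmbU F E u, f i.1 := by
  rw [← Fintype.sum_sigma (fun x : (Σ u : F →+* K, EmbU F E u) => f x.2.1)]
  exact Fintype.sum_equiv (fib F E) _ _ fun i => rfl

lemma smul_at (a : F) (z : ∀ k, E k) (k : ι) : (a • z) k = algebraMap F (E k) a * z k := by
  rw [Pi.smul_apply, Algebra.smul_def]

lemma emb_smul {K : Type} [Field K] {u : F →+* K} (i : EmbU F E u) (a : F) (z : ∀ k, E k) :
    i.1.2 ((a • z) i.1.1) = u a * i.1.2 (z i.1.1) := by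
  rw [Pi.smul_apply, Algebra.smul_def, map_mul]
  congr 1
  exact RingHom.congr_fun i.2 a

lemma pl_lin {K : Type} [NormedField K] (x y : ∀ k, E k) (a b c d : F) {u : F →+* K}
    (i j : EmbU F E u) : pl E (a • x + b • y) (c • x + d • y) i.1 j.1 =
      u (a * d - b * c) * pl E x y i.1 j.1 := by
  simp only [pl, Pi.add_apply, map_add, emb_smul, map_sub, map_mul]
  ring

lemma same_of_common {P Q R : (∀ k, E k) × (∀ k, E k)} (h1 : Same F E P R) (h2 : Same F E Q R) :
    Same F E P Q := by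
  obtain ⟨e, a, b, c, d, he, hd, h3, h4⟩ := h1
  obtain ⟨e', a', b', c', d', he', hd', h3', h4'⟩ := h2
  have h7 : ∀ k, algebraMap F (E k) (a' * d' - b' * c') ≠ 0 := fun k => (map_ne_zero _).2 hd'
  refine ⟨fun k => e k / (e' k * algebraMap F (E k) (a' * d' - b' * c')), d' * a - b' * c,
    d' * b - b' * d, a' * c - c' * a, a' * d - c' * b,
    fun k => div_ne_zero (he k) (mul_ne_zero (he' k) (h7 k)), ?_, ?_, ?_⟩
  · have : (d' * a - b' * c) * (a' * d - c' * b) - (d' * b - b' * d) * (a' * c - c' * a) =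
      (a * d - b * c) * (a' * d' - b' * c') := by ring
    rw [this]
    exact mul_ne_zero hd hd'
  · funext k
    have h5 := congrFun (h3.symm.trans h3') k
    have h6 := congrFun (h4.symm.trans h4') k
    simp only [Pi.mul_apply, Pi.add_apply, smul_at] at h5 h6 ⊢
    have h8 := he' k
    rw [div_mul_eq_mul_div, eq_div_iff (mul_ne_zero h8 (h7 k))]
    simp only [map_sub, map_mul]
    linear_combination (-(algebraMap F (E k) d')) * h5 + (algebraMap F (E k) b') * h6
  · funext k
    have h5 := congrFun (h3.symm.trans h3') k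
    have h6 := congrFun (h4.symm.trans h4') k
    simp only [Pi.mul_apply, Pi.add_apply, smul_at] at h5 h6 ⊢
    have h8 := he' k
    rw [div_mul_eq_mul_div, eq_div_iff (mul_ne_zero h8 (h7 k))]
    simp only [map_sub, map_mul]
    linear_combination (algebraMap F (E k) c') * h5 - (algebraMap F (E k) a') * h6

lemma same_lin (P : (∀ k, E k) × (∀ k, E k)) (a b c d : F) (h : a * d - b * c ≠ 0) :
    Same F E P (a • P.1 + b • P.2, c • P.1 + d • P.2) :=
  ⟨1, a, b, c, d, fun k => one_ne_zero, h, by simp, by simp⟩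

lemma same_mul (P : (∀ k, E k) × (∀ k, E k)) (e : ∀ k, E k) (h : ∀ k, e k ≠ 0) :
    Same F E P (e * P.1, e * P.2) :=
  ⟨e, 1, 0, 0, 1, h, by simp, by simp, by simp⟩

lemma Same.trans {P Q R : (∀ k, E k) × (∀ k, E k)} (h1 : Same F E P Q) (h2 : Same F E Q R) :
    Same F E P R := by
  obtain ⟨e, a, b, c, d, he, hd, h3, h4⟩ := h1
  obtain ⟨e', a', b', c', d', he', hd', h3', h4'⟩ := h2
  refine ⟨e' * e, a' * a + b' * c, a' * b + b' * d, c' * a + d' * c, c' * b + d' * d,
    fun k => mul_ne_zero (he' k) (he k), ?_, ?_, ?_⟩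
  · have : (a' * a + b' * c) * (c' * b + d' * d) - (a' * b + b' * d) * (c' * a + d' * c) =
      (a' * d' - b' * c') * (a * d - b * c) := by ring
    rw [this]
    exact mul_ne_zero hd' hd
  · rw [h3', h3, h4]
    funext k
    simp only [Pi.mul_apply, Pi.add_apply, smul_at, map_add, map_mul]
    ring
  · rw [h4', h3, h4]
    funext k
    simp only [Pi.mul_apply, Pi.add_apply, smul_at, map_add, map_mul]
    ring

/-- the conjugate embedding -/
noncomputable def cjU {u : F →+* ℂ} (i : EmbU F E u) : EmbU F E (ComplexEmbedding.conjugate u) :=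
  ⟨cj E i.1, by
    obtain ⟨i, rfl⟩ := i
    rfl⟩

variable {F E}

/-- at least two embeddings above every embedding of `F`: no coordinate vanishes -/
lemma Distinct.ne (hCARD : S_CARD) {x y : ∀ k, E k} (h : Distinct F E x y) (hd : 3 ≤ deg F E)
    (k : ι) : x k ≠ 0 ∨ y k ≠ 0 := by
  by_contra hcon
  push Not at hcon
  obtain ⟨h1, h2⟩ := hcon
  obtain ⟨σ⟩ : Nonempty (E k →+* ℂ) := inferInstance
  have hc := hCARD F ι E ℂ (σ.comp (algebraMap F (E k)))
  obtain ⟨j, hj⟩ : ∃ j : EmbU F E (σ.comp (algebraMap F (E k))), j ≠ ⟨⟨k, σ⟩, rfl⟩ := by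
    by_contra hno
    push Not at hno
    have : Fintype.card (EmbU F E (σ.comp (algebraMap F (E k)))) ≤ 1 :=
      Fintype.card_le_one_iff.2 fun a b => (hno a).trans (hno b).symm
    omega
  apply h _ ⟨⟨k, σ⟩, rfl⟩ j (Ne.symm hj)
  simp [pl, h1, h2]

lemma Distinct.mul {x y e : ∀ k, E k} (h : Distinct F E x y) (he : ∀ k, e k ≠ 0) :
    Distinct F E (e * x) (e * y) := by
  intro u i j hij
  rw [pl_mul]
  exact mul_ne_zero (mul_ne_zero ((map_ne_zero _).2 (he _)) ((map_ne_zero _).2 (he _)))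
    (h u i j hij)

lemma Distinct.lin {x y : ∀ k, E k} (h : Distinct F E x y) {a b c d : F}
    (hd : a * d - b * c ≠ 0) : Distinct F E (a • x + b • y) (c • x + d • y) := by
  intro u i j hij
  rw [pl_lin]
  exact mul_ne_zero ((map_ne_zero _).2 hd) (h u i j hij)

end Pool.Agent.K1H88.DF
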