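import Pool.Agent.K1H88.DF.Asm1

/-! The assembly of project DF: every point has a reduced representative. -/

set_option autoImplicit false
set_option linter.unusedSectionVars false

namespace Pool.Agent.K1H88.DF

open Module NumberField
open Pool.Agent.K1H88.DP (Kp pl vn cont cj cj_cj pl_mul pl_cj pl_swap pl_self cont_pos prod_cont)

variable (F : Type) [Field F] [NumberField F] {ι : Type} [Fintype ι] (E : ι → Type)
  [∀ k, Field (E k)] [∀ k, NumberField (E k)] [∀ k, Algebra F (E k)]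

lemma le_loc {K : Type} [NormedField K] [CharZero K] (u : F →+* K) (x y : ∀ k, E k)
    (π : Equiv.Perm (EmbU F E u)) : ∏ i, ‖pl E x y i.1 (π i).1‖ ≤ loc F E u x y := by
  exact le_ciSup (f := fun π : Equiv.Perm (EmbU F E u) => ∏ i, ‖pl E x y i.1 (π i).1‖)
    (Set.finite_range _).bddAbove π

variable {F E}

lemma loc_pos (hCARD : S_CARD) {x y : ∀ k, E k} (h : Distinct F E x y) (hd : 3 ≤ deg F E)
    (u : F →+* ℂ) : 0 < loc F E u x y := by
  classical
  have hc := hCARD F ι E ℂ u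
  obtain ⟨π, hπ⟩ : ∃ π : Equiv.Perm (EmbU F E u), ∀ i, π i ≠ i := by
    have e := Fintype.equivFin (EmbU F E u)
    rw [hc] at e
    obtain ⟨m, hm⟩ : ∃ m, deg F E = m + 2 := ⟨deg F E - 2, by omega⟩
    rw [hm] at e
    refine ⟨(e.trans (finRotate (m + 2))).trans e.symm, fun i hi => ?_⟩
    have h1 : finRotate (m + 2) (e i) = e i := by
      have := congrArg e hi
      simpa using this
    have h2 : finRotate (m + 2) (e i) = e i + 1 := finRotate_apply _
    rw [h1] at h2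
    have h3 : (1 : Fin (m + 2)) = 0 := by
      have := h2.symm
      simpa using this
    exact absurd h3 (by simp [Fin.ext_iff])
  exact lt_of_lt_of_le (Finset.prod_pos fun i _ => norm_pos_iff.2 (h u i (π i) (Ne.symm (hπ i))))
    (le_loc F E u x y π)

/-- The duality at infinity: `‖pl i j‖ ≤ r i * r j` for `i`, `j` above the same embedding of `F`,
with the product of all `r i ^ 2` at most the product of the local factors. -/
lemma dual_inf (hDUAL : DP.S_DUAL) (hCARD : S_CARD) {x y : ∀ k, E k} (h : Distinct F E x y)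
    (hodd : Odd (deg F E)) (hd : 3 ≤ deg F E) : ∃ r : DP.Emb E ℂ → ℝ, (∀ i, 0 < r i) ∧
      (∀ i, r (cj E i) = r i) ∧
      (∀ (u : F →+* ℂ) (i j : EmbU F E u), ‖pl E x y i.1 j.1‖ ≤ r i.1 * r j.1) ∧
      (∏ i, r i) ^ 2 ≤ ∏ u : F →+* ℂ, loc F E u x y := by
  classical
  have hD : ∀ u : F →+* ℂ, ∃ γ : EmbU F E u → ℝ,
      (∀ i j, i ≠ j → Real.log ‖pl E x y i.1 j.1‖ ≤ γ i + γ j) ∧
        2 * ∑ i, γ i ≤ Real.log (loc F E u x y) := by
    intro u
    have hc := hCARD F ι E ℂ u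
    obtain ⟨γ, h1, h2, -⟩ := hDUAL (EmbU F E u) (fun i j => Real.log ‖pl E x y i.1 j.1‖) id
      (Real.log (loc F E u x y)) (by rwa [hc]) (by rwa [hc])
      (fun i j => by rw [pl_swap E x y j.1 i.1, norm_neg]) (fun i => rfl) (fun i j => rfl)
      (fun π hπ => by
        have hne : ∀ i ∈ Finset.univ, ‖pl E x y i.1 (π i).1‖ ≠ 0 := fun i _ =>
          norm_ne_zero_iff.2 (h u i (π i) (Ne.symm (hπ i)))
        rw [← Real.log_prod hne]
        exact Real.log_le_log (Finset.prod_pos fun i hi => (norm_nonneg _).lt_of_ne' (hne i hi))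
          (le_loc F E u x y π))
    exact ⟨γ, h1, h2⟩
  choose γ h1 h2 using hD
  obtain ⟨g, hg⟩ : ∃ g : DP.Emb E ℂ → ℝ, ∀ (u : F →+* ℂ) (i : EmbU F E u), g i.1 = γ u i := by
    refine ⟨fun i => γ (res F E i) ⟨i, rfl⟩, fun u i => ?_⟩
    obtain ⟨i, rfl⟩ := i
    rfl
  refine ⟨fun i => Real.exp ((g i + g (cj E i)) / 2), fun i => Real.exp_pos _, fun i => ?_,
    fun u i j => ?_, ?_⟩
  · simp only [cj_cj]
    rw [add_comm]
  · by_cases hij : i = j
    · rw [hij, pl_self, norm_zero]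
      positivity
    · rw [← Real.exp_add, ← Real.log_le_iff_le_exp (norm_pos_iff.2 (h u i j hij))]
      have e1 := h1 u i j hij
      have hij' : cjU F E i ≠ cjU F E j := by
        intro hc
        apply hij
        have := congrArg (fun i => cj E i.1) hc
        simp only [cjU, cj_cj] at this
        exact Subtype.ext this
      have e2 := h1 _ (cjU F E i) (cjU F E j) hij'
      have e3 : ‖pl E x y (cjU F E i).1 (cjU F E j).1‖ = ‖pl E x y i.1 j.1‖ := by
        simp only [cjU]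
        rw [pl_cj, RCLike.norm_conj]
      rw [e3] at e2
      rw [← hg, ← hg] at e1 e2
      simp only [cjU] at e2
      linarith
  · have hl : ∀ u : F →+* ℂ, 0 < loc F E u x y := loc_pos hCARD h hd
    rw [← Real.exp_sum, ← Real.exp_nat_mul,
      ← Real.le_log_iff_exp_le (Finset.prod_pos fun u _ => hl u),
      Real.log_prod (fun u _ => (hl u).ne')]
    have e1 : ∑ i : DP.Emb E ℂ, (g i + g (cj E i)) / 2 = ∑ i, g i := by
      rw [← Finset.sum_div, Finset.sum_add_distrib]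
      have : ∑ i : DP.Emb E ℂ, g (cj E i) = ∑ i, g i :=
        Fintype.sum_equiv ⟨cj E, cj E, cj_cj E, cj_cj E⟩ _ _ fun i => rfl
      rw [this]
      ring
    rw [e1, sum_emb F E g]
    push_cast
    rw [Finset.mul_sum]
    refine Finset.sum_le_sum fun u _ => ?_
    have := h2 u
    simp only [hg]
    exact this

/-- The normalisation at the coordinates with `x k = 0`: there `y k = 1`. -/
lemma normalise (hCARD : S_CARD) {B T : ℝ} {x y : ∀ k, E k} (hd : 3 ≤ deg F E)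
    (hint : ∀ k, IsIntegral ℤ (x k) ∧ IsIntegral ℤ (y k)) (hdis : Distinct F E x y)
    {ρ : ι → ℝ} {μ : ℝ} {i₀ : ∀ u : F →+* ℂ, EmbU F E u} (hρ : ∀ k, 0 < ρ k) (hμ : 0 < μ)
    (hμB : μ ≤ B) (hT : ∏ k, ρ k ^ (2 * finrank ℚ (E k)) ≤ T)
    (h1 : ∀ i : DP.Emb E ℂ, ‖i.2 (x i.1)‖ ≤ μ * ρ i.1)
    (h2 : ∀ i : DP.Emb E ℂ, ‖i.2 (y i.1)‖ ≤ B * ρ i.1 / μ) (h3 : InSlab F E x y B i₀) :
    ∃ e : ∀ k, E k, (∀ k, e k ≠ 0) ∧ (e * x, e * y) ∈ Fam F E B T := by
  classical
  have hne := hdis.ne hCARD hd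
  have he : ∀ k, (if x k = 0 then (y k)⁻¹ else 1) ≠ 0 := by
    intro k
    split_ifs with hk
    · exact inv_ne_zero ((hne k).resolve_left (by simpa using hk))
    · exact one_ne_zero
  set e : ∀ k, E k := fun k => if x k = 0 then (y k)⁻¹ else 1 with hedef
  have e0 : ∀ k, x k = 0 → (e * x) k = 0 ∧ (e * y) k = 1 := by
    intro k hk
    have hy := (hne k).resolve_left (by simpa using hk)
    simp [hedef, hk, hy]
  have e1 : ∀ k, x k ≠ 0 → (e * x) k = x k ∧ (e * y) k = y k := by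
    intro k hk
    simp [hedef, hk]
  refine ⟨e, he, fun k => ?_, hdis.mul he, fun k hk => ?_, ρ, μ, i₀, hρ, hμ, hμB, hT, fun i => ?_,
    fun i => ?_, fun u => ?_⟩
  · by_cases hk : x k = 0
    · simp only [(e0 k hk).1, (e0 k hk).2]
      exact ⟨isIntegral_zero, isIntegral_one⟩
    · simp only [(e1 k hk).1, (e1 k hk).2]
      exact hint k
  · by_cases hk' : x k = 0
    · exact (e0 k hk').2
    · simp only [(e1 k hk').1] at hk
      exact absurd hk hk'
  · by_cases hk : x i.1 = 0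
    · simp only [(e0 _ hk).1, map_zero, norm_zero]
      have := hρ i.1
      positivity
    · simp only [(e1 _ hk).1]
      exact h1 i
  · by_cases hk : x i.1 = 0
    · simp only [(e0 _ hk).2, map_one, norm_one]
      have hy := (hne i.1).resolve_left (by simpa using hk)
      have h4 : (⟨y i.1, (hint i.1).2⟩ : 𝓞 (E i.1)) ≠ 0 := fun h => hy (congrArg Subtype.val h)
      obtain ⟨σ, hσ⟩ := NumberField.exists_conjugate_one_le_norm (K := E i.1) h4
      exact le_trans hσ (h2 ⟨i.1, σ⟩)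
    · simp only [(e1 _ hk).2]
      exact h2 i
  · have g : ∀ v : F →+* ℂ, (e * x) (i₀ v).1.1 = x (i₀ v).1.1 ∧
        (e * y) (i₀ v).1.1 = y (i₀ v).1.1 := by
      intro v
      apply e1
      intro hk
      apply (h3 v).1
      rw [hk, map_zero]
    have h5 := h3 u
    unfold wt at h5 ⊢
    simp only [(g u).1, (g u).2, (g (ComplexEmbedding.conjugate u)).1,
      (g (ComplexEmbedding.conjugate u)).2]
    exact h5

/-- Every point has a reduced representative. -/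
theorem reduced (hCARD : S_CARD) (hMIN : S_MIN) (hINV : S_INV) (hDUAL : DP.S_DUAL)
    (hFIN : DP.S_FIN) (hIDEAL : DP.S_IDEAL) (hSCALE : DP.S_SCALE) (hRED : S_RED)
    (hodd : Odd (deg F E)) (hd : 3 ≤ deg F E) : ∃ B C : ℝ, 1 ≤ B ∧ 1 ≤ C ∧
      ∀ (T : ℝ) (P : (∀ k, E k) × (∀ k, E k)), Distinct F E P.1 P.2 → ht F E P.1 P.2 ≤ T →
        ∃ Q ∈ Fam F E B (C * T), Same F E P Q := by
  classical
  obtain ⟨c₀, hc₀, hmin⟩ := hMIN F ι E hodd hd
  choose D hD1 hD using fun k => hSCALE (E k)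
  set D' : ℝ := 1 + ∑ k, D k with hD'
  have hDle : ∀ k, D k ≤ D' := by
    intro k
    have : D k ≤ ∑ k, D k := Finset.single_le_sum (f := D) (fun k _ => by linarith [hD1 k])
      (Finset.mem_univ k)
    linarith
  have hD'1 : 1 ≤ D' := by
    have : 0 ≤ ∑ k, D k := Finset.sum_nonneg fun k _ => by linarith [hD1 k]
    linarith
  obtain ⟨B', hB', hred⟩ := hRED F (D' ^ 2) (one_le_pow₀ hD'1)
  refine ⟨B', max 1 (1 / c₀), hB', le_max_left _ _, ?_⟩
  intro T P hP hT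
  obtain ⟨a, b, c, d, hdet, hm⟩ := hmin P.1 P.2 hP
  obtain ⟨hP1, hht⟩ := hINV F ι E P.1 P.2 hP hd a b c d hdet
  set x : ∀ k, E k := a • P.1 + b • P.2 with hx
  set y : ∀ k, E k := c • P.1 + d • P.2 with hy
  have hne := hP1.ne hCARD hd
  obtain ⟨r, hr0, hrc, hrp, hrA⟩ := dual_inf hDUAL hCARD hP1 hodd hd
  have hcp : ∀ k, 0 < cont (E k) (x k) (y k) := fun k => cont_pos hIDEAL (E k) (hne k)
  choose e he0 hex hey her hec using fun k => hD k (x k) (y k) (hne k) (fun σ => r ⟨k, σ⟩)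
    (fun σ => hr0 _) (fun σ => hrc ⟨k, σ⟩)
  have hn : ∀ k, finrank ℚ (E k) ≠ 0 := fun k => finrank_pos.ne'
  set ρ : ι → ℝ := fun k => (cont (E k) (x k) (y k) * ∏ σ, r ⟨k, σ⟩) ^
    (1 / (finrank ℚ (E k) : ℝ)) with hρ
  have hbase : ∀ k, 0 < cont (E k) (x k) (y k) * ∏ σ : E k →+* ℂ, r ⟨k, σ⟩ := fun k =>
    mul_pos (hcp k) (Finset.prod_pos fun σ _ => hr0 _)
  have hρ0 : ∀ k, 0 < ρ k := fun k => Real.rpow_pos_of_pos (hbase k) _
  have hρn : ∀ k, ρ k ^ finrank ℚ (E k) = cont (E k) (x k) (y k) * ∏ σ, r ⟨k, σ⟩ := by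
    intro k
    simp only [hρ, one_div]
    exact Real.rpow_inv_natCast_pow (hbase k).le (hn k)
  have hse : ∀ i : DP.Emb E ℂ, ‖i.2 (e i.1)‖ * r i ≤ D' * ρ i.1 := by
    intro i
    have h1 := her i.1 i.2
    rw [← hρn, ← mul_pow] at h1
    have h2 := le_of_pow_le_pow_left₀ (hn i.1)
      (mul_nonneg (by linarith [hD1 i.1]) (hρ0 i.1).le) h1
    exact h2.trans (mul_le_mul_of_nonneg_right (hDle _) (hρ0 _).le)
  have hP2 : Distinct F E (e * x) (e * y) := hP1.mul he0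
  have hpl : ∀ (u : F →+* ℂ) (i j : EmbU F E u),
      ‖pl E (e * x) (e * y) i.1 j.1‖ ≤ D' ^ 2 * (ρ i.1.1 * ρ j.1.1) := by
    intro u i j
    rw [pl_mul, norm_mul, norm_mul]
    calc ‖i.1.2 (e i.1.1)‖ * ‖j.1.2 (e j.1.1)‖ * ‖pl E x y i.1 j.1‖
        ≤ ‖i.1.2 (e i.1.1)‖ * ‖j.1.2 (e j.1.1)‖ * (r i.1 * r j.1) :=
          mul_le_mul_of_nonneg_left (hrp u i j) (by positivity)
      _ = (‖i.1.2 (e i.1.1)‖ * r i.1) * (‖j.1.2 (e j.1.1)‖ * r j.1) := by ring
      _ ≤ (D' * ρ i.1.1) * (D' * ρ j.1.1) := mul_le_mul (hse i.1) (hse j.1)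
          (mul_nonneg (norm_nonneg _) (hr0 _).le) (mul_nonneg (by linarith) (hρ0 _).le)
      _ = _ := by ring
  obtain ⟨a', b', c', d', μ, i₀, ia, ib, ic, id', hdet', hμ0, hμB, h1, h2, h3⟩ :=
    hred ι E (e * x) (e * y) ρ hd hP2 (fun k => ⟨hex k, hey k⟩) hρ0 hpl
  have hP3 : Distinct F E (a' • (e * x) + b' • (e * y)) (c' • (e * x) + d' • (e * y)) :=
    hP2.lin hdet'
  have hint : ∀ k, IsIntegral ℤ ((a' • (e * x) + b' • (e * y)) k) ∧
      IsIntegral ℤ ((c' • (e * x) + d' • (e * y)) k) := by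
    intro k
    have hk : ∀ s : F, IsIntegral ℤ s → IsIntegral ℤ (algebraMap F (E k) s) := fun s hs =>
      hs.map (algebraMap F (E k)).toIntAlgHom
    simp only [Pi.add_apply, smul_at]
    exact ⟨((hk _ ia).mul (hex k)).add ((hk _ ib).mul (hey k)),
      ((hk _ ic).mul (hex k)).add ((hk _ id').mul (hey k))⟩
  have hprod : ∏ k, ρ k ^ (2 * finrank ℚ (E k)) ≤ max 1 (1 / c₀) * T := by
    have g1 : ∏ k, ρ k ^ (2 * finrank ℚ (E k)) =
        (∏ k, cont (E k) (x k) (y k)) ^ 2 * (∏ i, r i) ^ 2 := by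
      rw [← mul_pow, Fintype.prod_sigma, ← Finset.prod_mul_distrib, ← Finset.prod_pow]
      refine Finset.prod_congr rfl fun k _ => ?_
      rw [mul_comm 2, pow_mul, hρn]
    rw [g1, prod_cont E hFIN hne]
    have g2 : 0 ≤ ∏ᶠ p : Nat.Primes, ∏ u : F →+* Kp p, loc F E u x y := finprod_nonneg fun p =>
      Finset.prod_nonneg fun u _ => by
        unfold loc
        exact Real.iSup_nonneg fun π => Finset.prod_nonneg fun i _ => norm_nonneg _
    have g3 : ht F E x y ≤ T := hht.trans_le hT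
    have g4 : c₀ * ((∏ᶠ p : Nat.Primes, ∏ i : DP.Emb E (Kp p), vn E x y i) ^ 2 *
        (∏ i, r i) ^ 2) ≤ T := by
      calc _ = (c₀ * (∏ᶠ p : Nat.Primes, ∏ i : DP.Emb E (Kp p), vn E x y i) ^ 2) *
            (∏ i, r i) ^ 2 := by ring
        _ ≤ (∏ᶠ p : Nat.Primes, ∏ u : F →+* Kp p, loc F E u x y) *
            ∏ u : F →+* ℂ, loc F E u x y :=
            mul_le_mul hm hrA (by positivity) g2
        _ = ht F E x y := by unfold ht; ring
        _ ≤ T := g3
    have g5 : (∏ᶠ p : Nat.Primes, ∏ i : DP.Emb E (Kp p), vn E x y i) ^ 2 * (∏ i, r i) ^ 2 ≤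
        1 / c₀ * T := by
      rw [div_mul_eq_mul_div, one_mul, le_div_iff₀ hc₀, mul_comm]
      exact g4
    have g6 : 0 ≤ T := le_trans (by positivity) g4
    exact g5.trans (mul_le_mul_of_nonneg_right (le_max_right _ _) g6)
  obtain ⟨f, hf0, hf⟩ := normalise hCARD hd hint hP3 hρ0 hμ0 hμB hprod h1 h2 h3
  refine ⟨_, hf, ?_⟩
  have s1 : Same F E P (x, y) := same_lin F E P a b c d hdet
  have s2 : Same F E (x, y) (e * x, e * y) := same_mul F E (x, y) e he0
  have s3 := same_lin F E (e * x, e * y) a' b' c' d' hdet'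
  have s4 := same_mul F E (a' • (e * x) + b' • (e * y), c' • (e * x) + d' • (e * y)) f hf0
  exact ((s1.trans F E s2).trans F E s3).trans F E s4

/-- The final count. -/
theorem count (hCARD : S_CARD) (hMIN : S_MIN) (hINV : S_INV) (hDUAL : DP.S_DUAL)
    (hFIN : DP.S_FIN) (hIDEAL : DP.S_IDEAL) (hSCALE : DP.S_SCALE) (hRED : S_RED) (hTOT : S_TOT)
    (hodd : Odd (deg F E)) (hd : 3 ≤ deg F E) : ∃ C : ℝ, ∀ T : ℝ, 2 ≤ T →
      ∀ A : Set ((∀ k, E k) × (∀ k, E k)),
        (∀ P ∈ A, Distinct F E P.1 P.2 ∧ ht F E P.1 P.2 ≤ T) →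
        (∀ P ∈ A, ∀ Q ∈ A, Same F E P Q → P = Q) →
        A.Finite ∧ (A.ncard : ℝ) ≤ C * T * Real.log T ^ (Fintype.card ι - 1) := by
  classical
  obtain ⟨B, C₁, hB, hC₁, h⟩ := reduced hCARD hMIN hINV hDUAL hFIN hIDEAL hSCALE hRED
    hodd hd
  obtain ⟨C₂, hC₂, h2⟩ := hTOT F ι E B hd hB
  set L : ℝ := 1 + Real.log C₁ / Real.log 2 with hL
  have hlog2 : 0 < Real.log 2 := Real.log_pos (by norm_num)
  have hL1 : 0 ≤ L := by
    have := Real.log_nonneg hC₁
    positivity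
  refine ⟨C₂ * C₁ * L ^ (Fintype.card ι - 1), fun T hT A hA hinj => ?_⟩
  have hCT : 2 ≤ C₁ * T := by nlinarith
  obtain ⟨hfin, hcard⟩ := h2 (C₁ * T) hCT
  choose! f hf hs using fun (P : (∀ k, E k) × (∀ k, E k)) (hP : P ∈ A) =>
    h T P (hA P hP).1 (hA P hP).2
  have hinj' : Set.InjOn f A := by
    intro P hP Q hQ hPQ
    exact hinj P hP Q hQ (same_of_common F E (hs P hP) (hPQ ▸ hs Q hQ))
  have hmaps : Set.MapsTo f A (Fam F E B (C₁ * T)) := fun P hP => hf P hP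
  refine ⟨Set.Finite.of_injOn hmaps hinj' hfin, ?_⟩
  have h3 : A.ncard ≤ (Fam F E B (C₁ * T)).ncard :=
    Set.ncard_le_ncard_of_injOn f hmaps hinj' hfin
  have h4 : Real.log (C₁ * T) ≤ L * Real.log T := by
    have hT0 : 0 < T := by linarith
    have hC0 : 0 < C₁ := by linarith
    rw [Real.log_mul hC0.ne' hT0.ne', hL]
    have h5 : Real.log 2 ≤ Real.log T := Real.log_le_log (by norm_num) hT
    have h6 : Real.log C₁ ≤ Real.log C₁ / Real.log 2 * Real.log T := by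
      rw [div_mul_eq_mul_div, le_div_iff₀ hlog2]
      exact mul_le_mul_of_nonneg_left h5 (Real.log_nonneg hC₁)
    linarith
  have h5 : 0 ≤ Real.log (C₁ * T) := Real.log_nonneg (by linarith)
  calc (A.ncard : ℝ) ≤ ((Fam F E B (C₁ * T)).ncard : ℝ) := by exact_mod_cast h3
    _ ≤ C₂ * (C₁ * T) * Real.log (C₁ * T) ^ (Fintype.card ι - 1) := hcard
    _ ≤ C₂ * (C₁ * T) * (L * Real.log T) ^ (Fintype.card ι - 1) := by
        apply mul_le_mul_of_nonneg_left (pow_le_pow_left₀ h5 h4 _)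
        have : 0 < T := by linarith
        positivity
    _ = _ := by rw [mul_pow]; ring

end Pool.Agent.K1H88.DF
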