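import Pool.Agent.K1H88.DP.Defs

/-!
# Forms of `(ℙ¹)ⁿ // SL₂`, `n` odd, over number fields: points and anticanonical height

`F`: a number field; `E k`, `k ∈ ι`: finite extensions of `F`, `∑ [E k : F] = n` odd. The pairs
`(x, y)`, `x, y ∈ ∏ E k`, whose `n` conjugates over `F` are different points of the projective line,
up to `GL₂(F)` and `∏ (E k)ˣ`, are the `F`-points of an open subset of the form of `(ℙ¹)ⁿ // SL₂`
attached to the étale `F`-algebra `∏ E k`.
-/

set_option autoImplicit false

namespace Pool.Agent.K1H88.DF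

open Pool.Agent.K1H88.DP (Kp pl vn cont)

variable (F : Type) [Field F] [NumberField F] {ι : Type} [Fintype ι] (E : ι → Type)
  [∀ k, Field (E k)] [∀ k, NumberField (E k)] [∀ k, Algebra F (E k)]

/-- The embeddings of the algebra `∏ E k` into `K` which extend the embedding `u` of `F`. -/
abbrev EmbU {K : Type} [Field K] (u : F →+* K) : Type :=
  {i : DP.Emb E K // i.2.comp (algebraMap F (E i.1)) = u}

noncomputable instance instFintypeEmbU {K : Type} [Field K] [CharZero K] (u : F →+* K) :
    Fintype (EmbU F E u) := Fintype.ofFinite _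

/-- The local factor of the height at the embedding `u` of `F`: the maximum, over all permutations
`π` of the `n` embeddings `σ` above `u`, of the product of all `‖σ(x) π(σ)(y) - π(σ)(x) σ(y)‖`. -/
noncomputable def loc {K : Type} [NormedField K] [CharZero K] (u : F →+* K) (x y : ∀ k, E k) : ℝ :=
  ⨆ π : Equiv.Perm (EmbU F E u), ∏ i, ‖pl E x y i.1 (π i).1‖

/-- The height: the product of the local factors at all embeddings of `F` into the complex numbers
and into the algebraic closures of the fields of `p`-adic numbers, for all primes `p`. -/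
noncomputable def ht (x y : ∀ k, E k) : ℝ :=
  (∏ u : F →+* ℂ, loc F E u x y) * ∏ᶠ p : Nat.Primes, ∏ u : F →+* Kp p, loc F E u x y

/-- all conjugates of `(x : y)` over `F` are different points of the projective line -/
def Distinct (x y : ∀ k, E k) : Prop :=
  ∀ (u : F →+* ℂ) (i j : EmbU F E u), i ≠ j → pl E x y i.1 j.1 ≠ 0

/-- `(x', y') = e (a x + b y, c x + d y)` with `a, b, c, d ∈ F`, `a d - b c ≠ 0` and an invertible
`e ∈ ∏ E k`. -/
def Same (P Q : (∀ k, E k) × (∀ k, E k)) : Prop :=
  ∃ (e : ∀ k, E k) (a b c d : F), (∀ k, e k ≠ 0) ∧ a * d - b * c ≠ 0 ∧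
    Q.1 = e * (a • P.1 + b • P.2) ∧ Q.2 = e * (c • P.1 + d • P.2)

/-- the degree of `∏ E k` over `F` -/
noncomputable def deg : ℕ := ∑ k, Module.finrank F (E k)

end Pool.Agent.K1H88.DF
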