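import Pool.Agent.K1H88.DF.Asm1
import Pool.Agent.K1H1.DP.HallDual
import Pool.Agent.K1H10.DP.FinTrans

/-! Project DF, piece INV: the height is invariant under `GL₂(F)` (after K1H1/DP/Inv.lean). -/

set_option autoImplicit false

namespace Pool.Agent.K1H88.DF.Inv

open Module NumberField Function
open Pool.Agent.K1H88.DP (Kp pl vn cont)

section

variable (F : Type) [Field F] [NumberField F] {ι : Type} [Fintype ι] (E : ι → Type)
  [∀ k, Field (E k)] [∀ k, NumberField (E k)] [∀ k, Algebra F (E k)]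
  {K : Type} [NormedField K] [CharZero K] (u : F →+* K)

theorem loc_lin (x y : ∀ k, E k) (a b c d : F) :
    loc F E u (a • x + b • y) (c • x + d • y) =
      ‖u (a * d - b * c)‖ ^ (Fintype.card (EmbU F E u)) * loc F E u x y := by
  unfold loc
  rw [Real.mul_iSup_of_nonneg (by positivity)]
  congr 1
  funext π
  rw [← Finset.card_univ, ← Finset.prod_const, ← Finset.prod_mul_distrib]
  refine Finset.prod_congr rfl fun i _ => ?_
  rw [pl_lin, norm_mul]

theorem loc_one (x y : ∀ k, E k) (h : ∀ i j : EmbU F E u, i ≠ j → ‖pl E x y i.1 j.1‖ = 1)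
    (hc : 2 ≤ Fintype.card (EmbU F E u)) : loc F E u x y = 1 := by
  classical
  obtain ⟨π, hπ⟩ := K1H1.DP.t_HALL (EmbU F E u) Eq eq_equivalence (by
    intro i
    have : Nat.card {j // i = j} = 1 := by
      rw [Nat.card_eq_fintype_card, Fintype.card_subtype_eq']
    omega)
  refine le_antisymm ?_ ?_
  · refine ciSup_le ?_
    intro τ
    by_cases hf : ∀ i, i ≠ τ i
    · rw [Finset.prod_eq_one fun i _ => h i (τ i) (hf i)]
    · push Not at hf
      obtain ⟨i, hi⟩ := hf
      rw [Finset.prod_eq_zero (Finset.mem_univ i)]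
      · exact zero_le_one
      · rw [← hi]
        simp [pl]
  · have h1 : ∏ i, ‖pl E x y i.1 (π i).1‖ = 1 :=
      Finset.prod_eq_one fun i _ => h i (π i) (hπ i)
    calc (1 : ℝ) = ∏ i, ‖pl E x y i.1 (π i).1‖ := h1.symm
      _ ≤ _ := le_ciSup (f := fun π : Equiv.Perm (EmbU F E u) => ∏ i, ‖pl E x y i.1 (π i).1‖)
        (Set.finite_range _).bddAbove π

end

/-- INV from CARD, TRANS and PF. -/
theorem t_INV (hC : S_CARD) (hT : S_TRANS) (hP : S_PF) : S_INV := by
  intro F _ _ ι _ E _ _ _ x y hxy h3 a b c d hD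
  obtain ⟨-, hT2⟩ := hT F ι E x y hxy
  refine ⟨hxy.lin hD, ?_⟩
  have h1 := hP F _ hD
  have h2 := K1H10.DP.t_FIN F _ hD
  set D : F := a * d - b * c with hDdef
  have hcont : cont F D 0 = ∏ᶠ p : Nat.Primes, ∏ u : F →+* Kp p, ‖u D‖ := by
    unfold DP.cont
    refine finprod_congr fun p => Finset.prod_congr rfl fun u _ => ?_
    rw [map_zero, norm_zero]
    exact max_eq_left (norm_nonneg _)
  rw [hcont] at h1
  have h7 : HasFiniteMulSupport (fun p : Nat.Primes => ∏ u : F →+* Kp p, ‖u D‖) := by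
    refine h2.subset ?_
    intro p hp
    by_contra hcon
    apply hp
    refine Finset.prod_eq_one fun u _ => ?_
    by_contra h
    exact hcon ⟨u, h⟩
  have h6 : HasFiniteMulSupport (fun p : Nat.Primes => (∏ u : F →+* Kp p, ‖u D‖) ^ deg F E) := by
    refine h7.subset ?_
    intro p hp hp2
    apply hp
    have : (∏ u : F →+* Kp p, ‖u D‖) = 1 := hp2
    show (∏ u : F →+* Kp p, ‖u D‖) ^ deg F E = 1
    rw [this, one_pow]
  have h5 : HasFiniteMulSupport (fun p : Nat.Primes => ∏ u : F →+* Kp p, loc F E u x y) := by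
    refine hT2.subset ?_
    intro p hp
    by_contra hcon
    apply hp
    refine Finset.prod_eq_one fun u _ => loc_one F E u x y ?_ ?_
    · intro i j hij
      by_contra h6
      exact hcon ⟨u, i, j, hij, h6⟩
    · rw [hC]; omega
  have e1 : ∀ p : Nat.Primes, ∏ u : F →+* Kp p, loc F E u (a • x + b • y) (c • x + d • y) =
      (∏ u : F →+* Kp p, ‖u D‖) ^ deg F E * ∏ u : F →+* Kp p, loc F E u x y := by
    intro p
    rw [← Finset.prod_pow, ← Finset.prod_mul_distrib]
    refine Finset.prod_congr rfl fun u _ => ?_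
    rw [loc_lin, hC]
  have e0 : ∏ u : F →+* ℂ, loc F E u (a • x + b • y) (c • x + d • y) =
      (∏ u : F →+* ℂ, ‖u D‖) ^ deg F E * ∏ u : F →+* ℂ, loc F E u x y := by
    rw [← Finset.prod_pow, ← Finset.prod_mul_distrib]
    refine Finset.prod_congr rfl fun u _ => ?_
    rw [loc_lin, hC]
  unfold ht
  rw [finprod_congr e1, finprod_mul_distrib h6 h5, ← finprod_pow h7, e0]
  set A := ∏ᶠ p : Nat.Primes, ∏ u : F →+* Kp p, ‖u D‖
  calc (∏ u : F →+* ℂ, ‖u D‖) ^ deg F E * (∏ u : F →+* ℂ, loc F E u x y) *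
        (A ^ deg F E * ∏ᶠ p : Nat.Primes, ∏ u : F →+* Kp p, loc F E u x y)
      = (A * ∏ u : F →+* ℂ, ‖u D‖) ^ deg F E *
        ((∏ u : F →+* ℂ, loc F E u x y) *
          ∏ᶠ p : Nat.Primes, ∏ u : F →+* Kp p, loc F E u x y) := by ring
    _ = _ := by rw [h1, one_pow, one_mul]

end Pool.Agent.K1H88.DF.Inv
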