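import Pool.Agent.K1H88.DF.Asm2
import Pool.Agent.K1H88.DF.Inv
import Pool.Agent.K1H1.DP.HallDual
import Pool.Agent.K1H10.DP.FinTrans
import Pool.Agent.K1H96.DP.Unr
import Pool.Agent.K1H89.DP.Ideal
import Pool.Agent.K1H59.DP.Scale
import Pool.Agent.K1H59.DP.Sum
import Pool.Agent.K1H45.DP.Box
import Pool.Agent.K1H45.DF.Card
import Pool.Agent.K1H10.DF.Trans
import Pool.Agent.K1H39.DF.Apx
import Pool.Agent.K1H26.DF.Conj
import Pool.Agent.K1H68.DF.Elt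
import Pool.Agent.K1H39.DF.Rat
import Pool.Agent.K1H30.DF.Min
import Pool.Agent.K1H10.DF.CovDir
import Pool.Agent.K1H60.DF.Red1
import Pool.Agent.K1H35.DF.Red
import Pool.Agent.K1H39.DF.Low
import Pool.Agent.K1H45.DF.Slab
import Pool.Agent.K1H52.DF.Tot

/-! Project DF: the final theorem. -/

set_option autoImplicit false

namespace Pool.Agent.K1H88.DF

theorem c_red : S_RED := K1H35.DF.t_RED K1H10.DF.t_DIR K1H10.DF.t_COV
  (K1H60.DF.t_RED1 K1H45.DF.t_CARD K1H89.DP.t_IDEAL (K1H59.DP.t_SCALE K1H89.DP.t_IDEAL)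
    K1H45.DF.t_PF)

theorem c_slab : S_SLAB := K1H45.DF.t_SLAB K1H45.DP.t_BOX K1H39.DF.t_LOW

theorem c_elt : S_ELT := K1H68.DF.t_ELT K1H45.DF.t_PF

theorem final (F : Type) [Field F] [NumberField F] {ι : Type} [Fintype ι] (E : ι → Type)
    [∀ k, Field (E k)] [∀ k, NumberField (E k)] [∀ k, Algebra F (E k)]
    (hodd : Odd (deg F E)) (hd : 3 ≤ deg F E) : ∃ C : ℝ, ∀ T : ℝ, 2 ≤ T →
      ∀ A : Set ((∀ k, E k) × (∀ k, E k)),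
        (∀ P ∈ A, Distinct F E P.1 P.2 ∧ ht F E P.1 P.2 ≤ T) →
        (∀ P ∈ A, ∀ Q ∈ A, Same F E P Q → P = Q) →
        A.Finite ∧ (A.ncard : ℝ) ≤ C * T * Real.log T ^ (Fintype.card ι - 1) :=
  count K1H45.DF.t_CARD
    (K1H30.DF.t_MIN K1H1.DP.t_HALL K1H10.DP.t_FIN K1H96.DP.Unr.t_UNR K1H45.DF.t_CARD
      K1H10.DF.t_TRANS K1H26.DF.t_CONJ c_elt (K1H39.DF.t_RAT K1H39.DF.t_APX))
    (Inv.t_INV K1H45.DF.t_CARD K1H10.DF.t_TRANS K1H45.DF.t_PF) K1H1.DP.t_DUAL K1H10.DP.t_FIN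
    K1H89.DP.t_IDEAL (K1H59.DP.t_SCALE K1H89.DP.t_IDEAL) c_red
    (K1H52.DF.t_TOT c_slab K1H59.DP.t_SUM) hodd hd

end Pool.Agent.K1H88.DF
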