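import Pool.Agent.K1H88.DF.Defs
import Pool.Agent.K1H88.DP.Stm

/-! The pieces of project DF (the theorem of project DP over every number field `F`). -/

set_option autoImplicit false

namespace Pool.Agent.K1H88.DF

open Module NumberField
open Pool.Agent.K1H88.DP (Kp pl vn cont)

/-- CARD: the number of the embeddings above one embedding of `F`. -/
def S_CARD : Prop := ∀ (F : Type) [Field F] [NumberField F] (ι : Type) [Fintype ι] (E : ι → Type)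
  [∀ k, Field (E k)] [∀ k, NumberField (E k)] [∀ k, Algebra F (E k)] (K : Type) [Field K]
  [CharZero K] [IsAlgClosed K] (u : F →+* K), Fintype.card (EmbU F E u) = deg F E

/-- TRANS: from the complex numbers to all primes. -/
def S_TRANS : Prop := ∀ (F : Type) [Field F] [NumberField F] (ι : Type) [Fintype ι] (E : ι → Type)
  [∀ k, Field (E k)] [∀ k, NumberField (E k)] [∀ k, Algebra F (E k)] (x y : ∀ k, E k),
  Distinct F E x y →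
  (∀ (p : Nat.Primes) (u : F →+* Kp p) (i j : EmbU F E u), i ≠ j → pl E x y i.1 j.1 ≠ 0) ∧
  {p : Nat.Primes | ∃ (u : F →+* Kp p) (i j : EmbU F E u), i ≠ j ∧ ‖pl E x y i.1 j.1‖ ≠ 1}.Finite

/-- PF: the product formula. -/
def S_PF : Prop := ∀ (F : Type) [Field F] [NumberField F] (e : F), e ≠ 0 →
  cont F e 0 * ∏ u : F →+* ℂ, ‖u e‖ = 1

/-- INV: the height is invariant under `GL₂(F)`. -/
def S_INV : Prop := ∀ (F : Type) [Field F] [NumberField F] (ι : Type) [Fintype ι] (E : ι → Type)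
  [∀ k, Field (E k)] [∀ k, NumberField (E k)] [∀ k, Algebra F (E k)] (x y : ∀ k, E k),
  Distinct F E x y → 3 ≤ deg F E → ∀ a b c d : F, a * d - b * c ≠ 0 →
    Distinct F E (a • x + b • y) (c • x + d • y) ∧
      ht F E (a • x + b • y) (c • x + d • y) = ht F E x y

/-- APX: what is fixed by all automorphisms over `u(F)` is a limit of integers of `F`. -/
def S_APX : Prop := ∀ (F : Type) [Field F] [NumberField F] (p : Nat.Primes) (u : F →+* Kp p)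
  (z : Kp p), ‖z‖ ≤ 1 →
  (∀ τ : Kp p ≃ₐ[ℚ_[(p : ℕ)]] Kp p, (∀ a : F, τ (u a) = u a) → τ z = z) →
  ∀ ε : ℝ, 0 < ε → ∃ m : F, IsIntegral ℤ m ∧ ‖z - u m‖ ≤ ε

/-- CONJ: embeddings with the same norms are conjugate. -/
def S_CONJ : Prop := ∀ (F : Type) [Field F] [NumberField F] (p : Nat.Primes) (u v : F →+* Kp p),
  (∀ z, ‖u z‖ = ‖v z‖) → ∃ τ : Kp p ≃ₐ[ℚ_[(p : ℕ)]] Kp p, ∀ z, τ (u z) = v z

/-- ELT: an integer of `F` which is divisible by the prime of `u₀` and by little else. -/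
def S_ELT : Prop := ∀ (F : Type) [Field F] [NumberField F] (n : ℕ), 2 ≤ n →
  ∃ (N : ℕ) (η : Nat.Primes → ℝ), (∀ p, 0 < η p) ∧ ∀ (p : Nat.Primes) (u₀ : F →+* Kp p),
    ∃ a : F, IsIntegral ℤ a ∧ a ≠ 0 ∧ ‖u₀ a‖ < 1 ∧ η p ≤ ‖u₀ a‖ ∧
      (N ≤ (p : ℕ) → 1 / ((p : ℕ) : ℝ) ≤ ‖u₀ a‖) ∧
      ∀ U : Finset (F →+* Kp p), (∀ u, u ∈ U ↔ ∀ z, ‖u z‖ = ‖u₀ z‖) →
        (∏ u ∈ U, ‖u a‖) ^ ((n - 1) * (n + 1)) ≤ 1 / 2 * cont F a 0 ^ (n * (n - 1))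

/-- RAT: a cluster with more than half of all points above `u` contains a point of `F`. -/
def S_RAT : Prop := ∀ (F : Type) [Field F] [NumberField F] (ι : Type) [Fintype ι] (E : ι → Type)
  [∀ k, Field (E k)] [∀ k, NumberField (E k)] [∀ k, Algebra F (E k)] (p : Nat.Primes)
  (u : F →+* Kp p) (x y : ∀ k, E k) (κ ε : ℝ) (S : Finset (EmbU F E u)),
  (∀ i : EmbU F E u, vn E x y i.1 ≠ 0) → Fintype.card (EmbU F E u) < 2 * S.card →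
  (∀ i ∈ S, ∀ j, j ∈ S ↔ ‖pl E x y i.1 j.1‖ ≤ κ * (vn E x y i.1 * vn E x y j.1)) →
  0 < ε → ε < 1 → κ ≤ ‖((S.card : ℕ) : Kp p)‖ * ε →
  ∃ m : F, IsIntegral ℤ m ∧
    ((∀ i ∈ S, ‖i.1.2 (x i.1.1) - u m * i.1.2 (y i.1.1)‖ ≤ ε * vn E x y i.1) ∨
      (∀ i ∈ S, ‖i.1.2 (y i.1.1) - u m * i.1.2 (x i.1.1)‖ ≤ ε * vn E x y i.1))

/-- MIN: every point has a model which is nearly stable at all primes. -/
def S_MIN : Prop := ∀ (F : Type) [Field F] [NumberField F] (ι : Type) [Fintype ι] (E : ι → Type)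
  [∀ k, Field (E k)] [∀ k, NumberField (E k)] [∀ k, Algebra F (E k)],
  Odd (deg F E) → 3 ≤ deg F E → ∃ c₀ : ℝ, 0 < c₀ ∧ ∀ x y : ∀ k, E k,
    Distinct F E x y → ∃ a b c d : F, a * d - b * c ≠ 0 ∧
      c₀ * (∏ᶠ p : Nat.Primes, ∏ i : DP.Emb E (Kp p),
          vn E (a • x + b • y) (c • x + d • y) i) ^ 2 ≤
        ∏ᶠ p : Nat.Primes, ∏ u : F →+* Kp p, loc F E u (a • x + b • y) (c • x + d • y)

/-- COV: covering radius of the ring of integers. -/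
def S_COV : Prop := ∀ (F : Type) [Field F] [NumberField F], ∃ C : ℝ, 1 ≤ C ∧
  ∀ w : (F →+* ℂ) → ℂ, (∀ u, w (ComplexEmbedding.conjugate u) = (starRingEnd ℂ) (w u)) →
    ∃ b : F, IsIntegral ℤ b ∧ ∀ u : F →+* ℂ, ‖w u - u b‖ ≤ C

/-- DIR: Dirichlet's theorem on simultaneous approximation. -/
def S_DIR : Prop := ∀ (F : Type) [Field F] [NumberField F] (ε : ℝ), 0 < ε → ∃ S : ℕ,
  ∀ w : (F →+* ℂ) → ℂ, (∀ u, w (ComplexEmbedding.conjugate u) = (starRingEnd ℂ) (w u)) →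
    ∃ (s : ℕ) (b : F), 1 ≤ s ∧ s ≤ S ∧ IsIntegral ℤ b ∧ ∀ u : F →+* ℂ, ‖s * w u - u b‖ ≤ ε

/-- RED1: a nearly minimal vector of the lattice generated by `x` and `y` over the integers of `F`. -/
def S_RED1 : Prop := ∀ (F : Type) [Field F] [NumberField F], ∃ (C : ℝ) (N : ℕ), 1 ≤ C ∧
  ∀ (ι : Type) [Fintype ι] (E : ι → Type) [∀ k, Field (E k)] [∀ k, NumberField (E k)]
  [∀ k, Algebra F (E k)] (x y : ∀ k, E k) (ρ : ι → ℝ), 3 ≤ deg F E → Distinct F E x y →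
  (∀ k, IsIntegral ℤ (x k) ∧ IsIntegral ℤ (y k)) → (∀ k, 0 < ρ k) →
  ∃ (a b c d : F) (Δ : ℕ) (μ : ℝ), IsIntegral ℤ a ∧ IsIntegral ℤ b ∧ IsIntegral ℤ c ∧
    IsIntegral ℤ d ∧ a * d - b * c = Δ ∧ 1 ≤ Δ ∧ Δ ≤ N ∧ 0 < μ ∧
    (∀ i : DP.Emb E ℂ, ‖i.2 ((a • x + b • y) i.1)‖ ≤ C * (μ * ρ i.1)) ∧
    (∀ u : F →+* ℂ, ∃ i : EmbU F E u, μ * ρ i.1.1 ≤ ‖i.1.2 ((a • x + b • y) i.1.1)‖) ∧
    (∀ α β : F, IsIntegral ℤ α → IsIntegral ℤ β → (α ≠ 0 ∨ β ≠ 0) →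
      ∃ i : DP.Emb E ℂ, μ * ρ i.1 ≤ 2 * ‖i.2 ((α • x + β • y) i.1)‖)

section
variable (F : Type) [Field F] [NumberField F] {ι : Type} [Fintype ι] (E : ι → Type)
  [∀ k, Field (E k)] [∀ k, NumberField (E k)] [∀ k, Algebra F (E k)]

/-- the quotient `σ(y) / σ(x)` -/
noncomputable def wt (x y : ∀ k, E k) (i : DP.Emb E ℂ) : ℂ := i.2 (y i.1) / i.2 (x i.1)

/-- the slab condition: `σ(y) / σ(x)` is bounded on the average over `i₀ u` and the conjugate of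
`i₀ (conjugate u)`; for real `u` this is a bound for the real part. -/
def InSlab (x y : ∀ k, E k) (B : ℝ) (i₀ : ∀ u : F →+* ℂ, EmbU F E u) : Prop :=
  ∀ u : F →+* ℂ, (i₀ u).1.2 (x (i₀ u).1.1) ≠ 0 ∧
    ‖wt E x y (i₀ u).1 + (starRingEnd ℂ) (wt E x y (i₀ (ComplexEmbedding.conjugate u)).1)‖ ≤ B

/-- the pairs of integral elements in a slab -/
def Slab (J : Finset ι) (B : ℝ) (R : ι → ℝ) (μ : ℝ) (i₀ : ∀ u : F →+* ℂ, EmbU F E u) :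
    Set ((∀ k, E k) × (∀ k, E k)) :=
  {P | (∀ k, IsIntegral ℤ (P.1 k) ∧ IsIntegral ℤ (P.2 k)) ∧
    (∀ k, k ∉ J → P.1 k = 0 ∧ P.2 k = 1) ∧
    (∀ k ∈ J, ∀ σ : E k →+* ℂ, ‖σ (P.1 k)‖ ≤ μ * R k ∧ ‖σ (P.2 k)‖ ≤ B * R k / μ) ∧
    InSlab F E P.1 P.2 B i₀}

/-- all reduced pairs of height at most `T` -/
def Fam (B T : ℝ) : Set ((∀ k, E k) × (∀ k, E k)) :=
  {P | (∀ k, IsIntegral ℤ (P.1 k) ∧ IsIntegral ℤ (P.2 k)) ∧ Distinct F E P.1 P.2 ∧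
    (∀ k, P.1 k = 0 → P.2 k = 1) ∧
    ∃ (ρ : ι → ℝ) (μ : ℝ) (i₀ : ∀ u : F →+* ℂ, EmbU F E u), (∀ k, 0 < ρ k) ∧ 0 < μ ∧ μ ≤ B ∧
      ∏ k, ρ k ^ (2 * finrank ℚ (E k)) ≤ T ∧
      (∀ i : DP.Emb E ℂ, ‖i.2 (P.1 i.1)‖ ≤ μ * ρ i.1) ∧
      (∀ i : DP.Emb E ℂ, ‖i.2 (P.2 i.1)‖ ≤ B * ρ i.1 / μ) ∧
      InSlab F E P.1 P.2 B i₀}

end

/-- RED: reduction of the lattice generated by `x` and `y` over the integers of `F`. -/
def S_RED : Prop := ∀ (F : Type) [Field F] [NumberField F] (B : ℝ), 1 ≤ B → ∃ B' : ℝ, 1 ≤ B' ∧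
  ∀ (ι : Type) [Fintype ι] (E : ι → Type) [∀ k, Field (E k)] [∀ k, NumberField (E k)]
  [∀ k, Algebra F (E k)] (x y : ∀ k, E k) (ρ : ι → ℝ), 3 ≤ deg F E → Distinct F E x y →
  (∀ k, IsIntegral ℤ (x k) ∧ IsIntegral ℤ (y k)) → (∀ k, 0 < ρ k) →
  (∀ (u : F →+* ℂ) (i j : EmbU F E u), ‖pl E x y i.1 j.1‖ ≤ B * (ρ i.1.1 * ρ j.1.1)) →
  ∃ (a b c d : F) (μ : ℝ) (i₀ : ∀ u : F →+* ℂ, EmbU F E u), IsIntegral ℤ a ∧ IsIntegral ℤ b ∧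
    IsIntegral ℤ c ∧ IsIntegral ℤ d ∧ a * d - b * c ≠ 0 ∧ 0 < μ ∧ μ ≤ B' ∧
    (∀ i : DP.Emb E ℂ, ‖i.2 ((a • x + b • y) i.1)‖ ≤ μ * ρ i.1) ∧
    (∀ i : DP.Emb E ℂ, ‖i.2 ((c • x + d • y) i.1)‖ ≤ B' * ρ i.1 / μ) ∧
    InSlab F E (a • x + b • y) (c • x + d • y) B' i₀

/-- LOW: lower bound for the number of the integers in a box. -/
def S_LOW : Prop := ∀ (F : Type) [Field F] [NumberField F], ∃ c : ℝ, 0 < c ∧ ∀ R : ℝ, 0 < R →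
  c * R ^ finrank ℚ F ≤ ({b : F | IsIntegral ℤ b ∧ ∀ u : F →+* ℂ, ‖u b‖ ≤ R}.ncard : ℝ)

/-- SLAB: the number of the pairs in a slab. -/
def S_SLAB : Prop := ∀ (F : Type) [Field F] [NumberField F] (ι : Type) [Fintype ι] (E : ι → Type)
  [∀ k, Field (E k)] [∀ k, NumberField (E k)] [∀ k, Algebra F (E k)] (B : ℝ), 1 ≤ B →
  ∃ C : ℝ, 0 < C ∧ ∀ (J : Finset ι) (R : ι → ℝ) (μ : ℝ) (i₀ : ∀ u : F →+* ℂ, EmbU F E u),
    0 < μ → μ ≤ 2 * B → (∀ k ∈ J, 1 ≤ μ * R k) →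
    (Slab F E J B R μ i₀).Finite ∧
      ((Slab F E J B R μ i₀).ncard : ℝ) ≤
        C * μ ^ (2 * finrank ℚ F) * ∏ k ∈ J, R k ^ (2 * finrank ℚ (E k))

/-- TOT: the number of all reduced pairs of height at most `T`. -/
def S_TOT : Prop := ∀ (F : Type) [Field F] [NumberField F] (ι : Type) [Fintype ι] (E : ι → Type)
  [∀ k, Field (E k)] [∀ k, NumberField (E k)] [∀ k, Algebra F (E k)] (B : ℝ), 3 ≤ deg F E →
  1 ≤ B → ∃ C : ℝ, 0 < C ∧ ∀ T : ℝ, 2 ≤ T → (Fam F E B T).Finite ∧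
    ((Fam F E B T).ncard : ℝ) ≤ C * T * Real.log T ^ (Fintype.card ι - 1)

end Pool.Agent.K1H88.DF
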